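import Mathlib
import Pool.Agent.R330.MI.Class
import Pool.Agent.R330.MI.Lower
import Pool.Agent.R330.MI.Exist

/-!
# Uniform approximation by algebraic integers on the classes `D_{n,w}`

For every `n ≥ 2` and `w ≥ 2n + 2`, every value between the two known bounds
`(n-1)/(w-n+2)` and `n/(w-n+1)` is attained by both exponents at a common `ζ ∈ D_{n,w}`.
-/

set_option autoImplicit false

namespace Pool.Agent.Results.MP_1639aa_nt.MonicSpectrum

open Polynomial

/-- The naive height of an integer polynomial: the maximum of the absolute values of its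
coefficients. -/
def naiveHeight (P : ℤ[X]) : ℕ := P.support.sup fun i => (P.coeff i).natAbs

/-- Mahler's exponent `w_n(ζ)`: the supremum of the real `w` for which infinitely many nonzero
integer polynomials `P` of degree at most `n` satisfy `|P(ζ)| ≤ H(P)^(-w)`. -/
noncomputable def mahler (n : ℕ) (ζ : ℝ) : EReal :=
  sSup {W : EReal | ∃ w : ℝ, W = (w : EReal) ∧
    {P : ℤ[X] | P ≠ 0 ∧ P.natDegree ≤ n ∧ |aeval ζ P| ≤ (naiveHeight P : ℝ) ^ (-w)}.Infinite}

/-- Koksma's exponent `w_n^*(ζ)`: the supremum of the real `w` for which infinitely many algebraic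
numbers `α ∈ S` of degree at most `n` satisfy `|ζ - α| ≤ H(α)^(-w-1)`. The degree and the height
of `α` are those of the irreducible integer polynomial with root `α`, unique up to sign. The set
`S` of admitted numbers is all of `ℂ`, or only the real numbers, or any set between. -/
noncomputable def koksma (S : Set ℂ) (n : ℕ) (ζ : ℝ) : EReal :=
  sSup {W : EReal | ∃ w : ℝ, W = (w : EReal) ∧
    {α : ℂ | α ∈ S ∧ ∃ P : ℤ[X], Irreducible P ∧ aeval α P = 0 ∧ P.natDegree ≤ n ∧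
      ‖(ζ : ℂ) - α‖ ≤ (naiveHeight P : ℝ) ^ (-w - 1)}.Infinite}

/-- The class `D_{n,w}`: the transcendental real `ζ` with `w_j(ζ) = w_j^*(ζ) = w` for
`1 ≤ j ≤ n`. -/
def InD (S : Set ℂ) (n : ℕ) (w ζ : ℝ) : Prop :=
  Transcendental ℚ ζ ∧ ∀ j : ℕ, 1 ≤ j → j ≤ n →
    mahler j ζ = (w : EReal) ∧ koksma S j ζ = (w : EReal)

/-- The exponent `ŵ_n^int(ζ)`: the supremum of the real `w` such that for every sufficiently large
real `X` there is a monic integer polynomial `P` of degree at most `n` with `H(P) ≤ X` and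
`|P(ζ)| ≤ X^(-w)`. -/
noncomputable def hatInt (n : ℕ) (ζ : ℝ) : EReal :=
  sSup {W : EReal | ∃ w : ℝ, W = (w : EReal) ∧ ∃ X₀ : ℝ, ∀ X : ℝ, X₀ ≤ X →
    ∃ P : ℤ[X], P.Monic ∧ P.natDegree ≤ n ∧ (naiveHeight P : ℝ) ≤ X ∧ |aeval ζ P| ≤ X ^ (-w)}

/-- The exponent `ŵ_n^{*int}(ζ)`: the supremum of the real `w` such that for every sufficiently
large real `X` there is an algebraic integer `α ∈ S` of degree at most `n` with `H(α) ≤ X` and
`|ζ - α| ≤ H(α)^(-1) X^(-w)`. -/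
noncomputable def hatStarInt (S : Set ℂ) (n : ℕ) (ζ : ℝ) : EReal :=
  sSup {W : EReal | ∃ w : ℝ, W = (w : EReal) ∧ ∃ X₀ : ℝ, ∀ X : ℝ, X₀ ≤ X →
    ∃ (α : ℂ) (P : ℤ[X]), α ∈ S ∧ P.Monic ∧ Irreducible P ∧ aeval α P = 0 ∧ P.natDegree ≤ n ∧
      (naiveHeight P : ℝ) ≤ X ∧ ‖(ζ : ℂ) - α‖ ≤ (naiveHeight P : ℝ)⁻¹ * X ^ (-w)}

open Pool.Agent.R330.MI

lemma nh (P : ℤ[X]) : naiveHeight P = Pool.Agent.W71.hgt P := rfl

lemma le_of_forall_real {a : ℝ} (ha : 0 < a) {x : EReal}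
    (h : ∀ r : ℝ, 0 < r → r < a → (r : EReal) ≤ x) : (a : EReal) ≤ x := by
  apply le_of_forall_lt
  intro c hc
  obtain ⟨r, hr1, hr2⟩ := EReal.lt_iff_exists_real_btwn.1 hc
  rw [EReal.coe_lt_coe_iff] at hr2
  set r' : ℝ := max r (a / 2) with hr'
  have hr'0 : 0 < r' := lt_of_lt_of_le (by positivity) (le_max_right _ _)
  have hr'2 : r' < a := max_lt hr2 (by linarith)
  exact hr1.trans_le ((EReal.coe_le_coe_iff.2 (le_max_left _ _)).trans (h r' hr'0 hr'2))

variable {n : ℕ} {w κ θ ζ C : ℝ} {p q r : ℕ → ℤ}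

lemma aeval_real (P : ℤ[X]) (x : ℝ) : aeval (x : ℂ) P = ((aeval x P : ℝ) : ℂ) := by
  have := aeval_algebraMap_apply ℂ x P
  simpa using this

lemma mahler_eq (h : Reg n w κ θ ζ p q r C) (hw : (n : ℝ) ≤ w) (hw0 : 0 < w)
    (hκ : κ * n ≤ w * (w - n + 1)) (j : ℕ) (hj1 : 1 ≤ j) (hjn : j ≤ n) :
    mahler j ζ = (w : EReal) := by
  apply le_antisymm
  · obtain ⟨c, hc0, hc⟩ := h.star hw hw0.le hκ n le_rfl
    apply sSup_le
    rintro W ⟨v, rfl, hv⟩
    rw [EReal.coe_le_coe_iff]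
    by_contra hcon
    push Not at hcon
    apply hv
    obtain ⟨B, hB⟩ := Filter.eventually_atTop.1
      ((tendsto_rpow_atTop (sub_pos.2 hcon)).eventually_gt_atTop (1 / c))
    refine (Pool.Agent.W71.finite_hgt j B).subset ?_
    rintro P ⟨h1, h2, h3⟩
    refine ⟨h2, ?_⟩
    by_contra hP
    push Not at hP
    have h4 := hc P h1 (h2.trans hjn)
    have h5 := hB _ hP.le
    rw [nh] at h3
    have hH1 : (1 : ℝ) ≤ Pool.Agent.W71.hgt P := by
      exact_mod_cast Pool.Agent.W71.hgt_pos h1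
    set H : ℝ := (Pool.Agent.W71.hgt P : ℝ) with hH
    have hH0 : 0 < H := by linarith
    have h6 : c * H ^ (-w) ≤ H ^ (-v) := h4.trans h3
    have h7 : c * H ^ (v - w) ≤ 1 := by
      calc c * H ^ (v - w) = (c * H ^ (-w)) * H ^ v := by
            rw [mul_assoc, ← Real.rpow_add hH0]; congr 2; ring
        _ ≤ H ^ (-v) * H ^ v := by gcongr
        _ = 1 := by rw [← Real.rpow_add hH0, neg_add_cancel, Real.rpow_zero]
    rw [div_lt_iff₀ hc0] at h5
    linarith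
  · apply le_of_forall_real hw0
    intro v hv hvw
    apply le_sSup
    refine ⟨v, rfl, ?_⟩
    apply infinite_poly (fun k => Lk (p k) (q k))
    · simpa only [Lk_coeff_one] using h.qtop
    · filter_upwards [h.lin_small v hv hvw] with k hk
      have hqk : q k ≠ 0 := by have := h.q2 k; omega
      exact ⟨Lk_ne _ _ hqk, by rw [Lk_natDegree _ _ hqk]; exact hj1, hk.1⟩

lemma koksma_eq (S : Set ℂ) (hS : ∀ x : ℝ, (x : ℂ) ∈ S) (h : Reg n w κ θ ζ p q r C)
    (hw : (n : ℝ) ≤ w) (hw0 : 0 < w)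
    (hκ : κ * n ≤ w * (w - n + 1)) (j : ℕ) (hj1 : 1 ≤ j) (hjn : j ≤ n) :
    koksma S j ζ = (w : EReal) := by
  apply le_antisymm
  · obtain ⟨c, hc0, hc⟩ := h.star hw hw0.le hκ n le_rfl
    apply sSup_le
    rintro W ⟨v, rfl, hv⟩
    rw [EReal.coe_le_coe_iff]
    by_contra hcon
    push Not at hcon
    apply hv
    set K : ℝ := ((n : ℝ) + 1) ^ 2 * (|ζ| + 1) ^ n with hK
    have hK0 : 0 < K := by rw [hK]; positivity
    obtain ⟨B, hB⟩ := Filter.eventually_atTop.1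
      ((tendsto_rpow_atTop (sub_pos.2 hcon)).eventually_gt_atTop (K / c))
    have hfin : (⋃ P ∈ {P : ℤ[X] | P.natDegree ≤ j ∧ (Pool.Agent.W71.hgt P : ℝ) ≤ B},
        {α : ℂ | P ≠ 0 ∧ aeval α P = 0}).Finite := by
      refine (Pool.Agent.W71.finite_hgt j B).biUnion fun P _ => ?_
      by_cases hP : P = 0
      · simp [hP]
      · refine (P.rootSet_finite ℂ).subset ?_
        rintro α ⟨-, h2⟩
        rw [Polynomial.mem_rootSet]
        exact ⟨hP, h2⟩
    refine hfin.subset ?_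
    rintro α ⟨-, P, h1, h2, h3, h4⟩
    rw [Set.mem_iUnion₂]
    refine ⟨P, ⟨h3, ?_⟩, h1.ne_zero, h2⟩
    by_contra hP
    push Not at hP
    rw [nh] at h4
    have hH1 : (1 : ℝ) ≤ Pool.Agent.W71.hgt P := by
      exact_mod_cast Pool.Agent.W71.hgt_pos h1.ne_zero
    have h5 := hB _ hP.le
    have h6 := hc P h1.ne_zero (h3.trans hjn)
    set H : ℝ := (Pool.Agent.W71.hgt P : ℝ) with hH
    have hH0 : 0 < H := by linarith
    have h7 : ‖(ζ : ℂ) - α‖ ≤ 1 :=
      h4.trans (Real.rpow_le_one_of_one_le_of_nonpos hH1 (by linarith))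
    have h8 := cval_small n P (h3.trans hjn) ζ α h2 h7
    rw [← hH, ← hK] at h8
    have h9 : c * H ^ (-w) ≤ K * H ^ (-v) := by
      calc c * H ^ (-w) ≤ H * K * ‖(ζ : ℂ) - α‖ := h6.trans h8
        _ ≤ H * K * H ^ (-v - 1) := by gcongr
        _ = K * (H ^ (1 : ℝ) * H ^ (-v - 1)) := by rw [Real.rpow_one]; ring
        _ = K * H ^ (-v) := by rw [← Real.rpow_add hH0]; congr 2; ring
    have h10 : c * H ^ (v - w) ≤ K := by
      calc c * H ^ (v - w) = (c * H ^ (-w)) * H ^ v := by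
            rw [mul_assoc, ← Real.rpow_add hH0]; congr 2; ring
        _ ≤ (K * H ^ (-v)) * H ^ v := by gcongr
        _ = K := by rw [mul_assoc, ← Real.rpow_add hH0, neg_add_cancel, Real.rpow_zero, mul_one]
    rw [div_lt_iff₀ hc0] at h5
    linarith
  · apply le_of_forall_real hw0
    intro v hv hvw
    apply le_sSup
    refine ⟨v, rfl, ?_⟩
    apply infinite_of_tendsto (fun k => (((p k : ℝ) / q k : ℝ) : ℂ)) (ζ : ℂ)
    · exact (Complex.continuous_ofReal.tendsto ζ).comp (h.tendsto hw0)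
    · intro k h0
      exact h.ne k (by exact_mod_cast h0)
    · filter_upwards [h.lin_small v hv hvw] with k hk
      have hqk : q k ≠ 0 := by have := h.q2 k; omega
      have hqR : ((q k : ℤ) : ℝ) ≠ 0 := by exact_mod_cast hqk
      refine ⟨hS _, Lk (p k) (q k), Lk_irr _ _ hqk (h.cop k), ?_, ?_, ?_⟩
      · rw [aeval_real, Lk_aeval]
        have : (q k : ℝ) * ((p k : ℝ) / q k) - p k = 0 := by field_simp; ring
        rw [this]; simp
      · rw [Lk_natDegree _ _ hqk]; exact hj1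
      · rw [← Complex.ofReal_sub, Complex.norm_real, Real.norm_eq_abs, abs_sub_comm]
        exact hk.2

lemma hatInt_nonneg (n : ℕ) (ζ : ℝ) : (0 : EReal) ≤ hatInt n ζ := by
  apply le_sSup
  refine ⟨0, by simp, 1, fun X hX => ⟨1, monic_one, by simp, ?_, ?_⟩⟩
  · have : naiveHeight (1 : ℤ[X]) ≤ 1 := by
      unfold naiveHeight
      apply Finset.sup_le
      intro i _
      rw [coeff_one]
      split_ifs <;> simp
    calc (naiveHeight (1 : ℤ[X]) : ℝ) ≤ 1 := by exact_mod_cast this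
      _ ≤ X := hX
  · simp

lemma star_le (S : Set ℂ) (n : ℕ) (ζ : ℝ) : hatStarInt S n ζ ≤ hatInt n ζ := by
  apply sSup_le
  rintro W ⟨v, rfl, X₀, hX₀⟩
  rcases le_or_gt v 0 with hv | hv
  · refine le_trans ?_ (hatInt_nonneg n ζ)
    exact_mod_cast hv
  · apply le_of_forall_real hv
    intro v' hv' hvv'
    apply le_sSup
    set K : ℝ := ((n : ℝ) + 1) ^ 2 * (|ζ| + 1) ^ n with hK
    have hK0 : 0 < K := by rw [hK]; positivity
    obtain ⟨X₁, hX₁⟩ := Filter.eventually_atTop.1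
      ((tendsto_rpow_atTop (sub_pos.2 hvv')).eventually_ge_atTop K)
    refine ⟨v', rfl, max (max X₀ X₁) 1, fun X hX => ?_⟩
    have hX1 : 1 ≤ X := (le_max_right _ _).trans hX
    have hXX₀ : X₀ ≤ X := ((le_max_left _ _).trans (le_max_left _ _)).trans hX
    have hXX₁ : X₁ ≤ X := ((le_max_right _ _).trans (le_max_left _ _)).trans hX
    obtain ⟨α, P, -, h1, h2, h3, h4, h5, h6⟩ := hX₀ X hXX₀
    refine ⟨P, h1, h4, h5, ?_⟩
    rw [nh] at h6
    have hH1 : (1 : ℝ) ≤ Pool.Agent.W71.hgt P := by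
      exact_mod_cast Pool.Agent.W71.hgt_pos h1.ne_zero
    have hH0 : (0 : ℝ) < Pool.Agent.W71.hgt P := by linarith
    have hX0 : 0 < X := by linarith
    have hXv : X ^ (-v) ≤ 1 := Real.rpow_le_one_of_one_le_of_nonpos hX1 (by linarith)
    have h7 : ‖(ζ : ℂ) - α‖ ≤ 1 := by
      refine h6.trans ?_
      calc ((Pool.Agent.W71.hgt P : ℕ) : ℝ)⁻¹ * X ^ (-v) ≤ 1 * 1 := by
            apply mul_le_mul (inv_le_one_of_one_le₀ hH1) hXv (by positivity) zero_le_one
        _ = 1 := one_mul 1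
    have h8 := cval_small n P h4 ζ α h3 h7
    rw [← hK] at h8
    calc |aeval ζ P| ≤ (Pool.Agent.W71.hgt P : ℝ) * K * ‖(ζ : ℂ) - α‖ := h8
      _ ≤ (Pool.Agent.W71.hgt P : ℝ) * K * ((Pool.Agent.W71.hgt P : ℝ)⁻¹ * X ^ (-v)) := by
          gcongr
      _ = K * X ^ (-v) := by field_simp
      _ ≤ X ^ (v - v') * X ^ (-v) := by
          have := hX₁ X hXX₁
          gcongr
      _ = X ^ (-v') := by rw [← Real.rpow_add hX0]; congr 1; ring

lemma hatInt_le (h : Reg n w κ θ ζ p q r C) (hθn : θ < n) (hw : (n : ℝ) ≤ w) (hθ0 : 0 ≤ θ) :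
    hatInt n ζ ≤ ((((n : ℝ) - θ) / (w + 1 - (n - θ)) : ℝ) : EReal) := by
  have hg : 0 < w + 1 - ((n : ℝ) - θ) := by linarith
  apply sSup_le
  rintro W ⟨v, rfl, X₀, hX₀⟩
  rw [EReal.coe_le_coe_iff]
  by_contra hcon
  push Not at hcon
  have hv0 : 0 < v := lt_trans (div_pos (by linarith) hg) hcon
  rw [div_lt_iff₀ hg] at hcon
  obtain ⟨X, h1, h2, h3⟩ := h.unif_upper v hv0 hg hcon X₀
  obtain ⟨P, k1, k2, k3, k4⟩ := hX₀ X h1
  have := h3 P k1 k2 k3
  linarith

lemma le_hatStar (S : Set ℂ) (hS : ∀ x : ℝ, (x : ℂ) ∈ S) (h : Reg n w κ θ ζ p q r C)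
    (hn : 2 ≤ n) (hw : (n : ℝ) ≤ w) (hθ0 : 0 ≤ θ) (hθ1 : θ ≤ 1) (hwe : (n : ℝ) - θ < w)
    (hκ0 : 0 < κ) (hκ : κ * n ≤ w * (w - n + 1)) :
    ((((n : ℝ) - θ) / (w + 1 - (n - θ)) : ℝ) : EReal) ≤ hatStarInt S n ζ := by
  have hnR : (2 : ℝ) ≤ n := by exact_mod_cast hn
  have hg : 0 < w + 1 - ((n : ℝ) - θ) := by linarith
  apply le_of_forall_real (div_pos (by linarith) hg)
  intro v hv hve
  rw [lt_div_iff₀ hg] at hve
  have hκv : κ * v < w := by
    have h1 : κ * v * n < w * n := by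
      have h2 : v * (w - n + 1) < n := by nlinarith
      calc κ * v * n = v * (κ * n) := by ring
        _ ≤ v * (w * (w - n + 1)) := by gcongr
        _ = w * (v * (w - n + 1)) := by ring
        _ < w * n := by
            apply mul_lt_mul_of_pos_left h2; linarith
    exact lt_of_mul_lt_mul_right h1 (by linarith)
  obtain ⟨X₀, hX₀⟩ := h.unif_lower hn hθ1 hwe hκ0 v hv hve hκv
  apply le_sSup
  refine ⟨v, rfl, X₀, fun X hX => ?_⟩
  obtain ⟨α, Q, k1, k2, k3, k4, k5, k6⟩ := hX₀ X hX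
  have hH1 : (1 : ℝ) ≤ Pool.Agent.W71.hgt Q := by
    exact_mod_cast Pool.Agent.W71.hgt_pos k2.ne_zero
  have hH0 : (0 : ℝ) < Pool.Agent.W71.hgt Q := by linarith
  refine ⟨(α : ℂ), Q, hS α, k1, k2, ?_, k3, k5, ?_⟩
  · rw [aeval_real, k4]; simp
  · rw [← Complex.ofReal_sub, Complex.norm_real, Real.norm_eq_abs, nh,
      ← div_eq_inv_mul, le_div_iff₀ hH0]
    linarith

/-- **The spectrum on the classes `D_{n,w}`.** Let `n ≥ 2` and `w ≥ 2n + 2` (or, more generally,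
`n (n w + 1) ≤ (n - 1) w (w - n + 1)`). For every real `v` between the two known bounds there is
`ζ ∈ D_{n,w}` with `ŵ_n^int(ζ) = ŵ_n^{*int}(ζ) = v`. -/
theorem result (n : ℕ) (hn : 2 ≤ n) (w : ℝ) (hnw : (n : ℝ) ≤ w)
    (hw : 2 * (n : ℝ) + 2 ≤ w ∨ (n : ℝ) * (n * w + 1) ≤ (n - 1) * w * (w - n + 1))
    (v : ℝ) (hv1 : ((n : ℝ) - 1) / (w - n + 2) ≤ v) (hv2 : v ≤ (n : ℝ) / (w - n + 1)) :
    ∃ ζ : ℝ, ∀ S : Set ℂ, (∀ x : ℝ, (x : ℂ) ∈ S) →
      InD S n w ζ ∧ hatInt n ζ = (v : EReal) ∧ hatStarInt S n ζ = (v : EReal) := by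
  have hnR : (2 : ℝ) ≤ n := by exact_mod_cast hn
  have hw' : (n : ℝ) * (n * w + 1) ≤ (n - 1) * w * (w - n + 1) := by
    rcases hw with h | h
    · have h1 : (n - 1) * w * ((n : ℝ) + 3) ≤ (n - 1) * w * (w - n + 1) := by
        apply mul_le_mul_of_nonneg_left _ (mul_nonneg (by linarith) (by linarith))
        linarith
      nlinarith
    · exact h
  have hw0 : 0 < w := by linarith
  have hg2 : 0 < w - n + 2 := by linarith
  have hg1 : 0 < w - n + 1 := by linarith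
  have hnw1 : (n : ℝ) < w := by
    rcases eq_or_lt_of_le hnw with h | h
    · rw [← h] at hw'; nlinarith
    · exact h
  have hv0 : 0 < v := lt_of_lt_of_le (div_pos (by linarith) hg2) hv1
  rw [div_le_iff₀ hg2] at hv1
  rw [le_div_iff₀ hg1] at hv2
  -- the parameter
  set e : ℝ := v * (w + 1) / (1 + v) with he
  have hev : e * (1 + v) = v * (w + 1) := by rw [he]; field_simp
  have hen : e ≤ n := by
    rw [he, div_le_iff₀ (by linarith)]; linarith
  have hen1 : (n : ℝ) - 1 ≤ e := by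
    rw [he, le_div_iff₀ (by linarith)]; linarith
  obtain ⟨κ, ζ, p, q, r, C, h, hκ0, hκ⟩ := exists_number n hn w (n - e) hnw hw' (by linarith)
    (by linarith)
  have hval : ((n : ℝ) - (n - e)) / (w + 1 - (n - (n - e))) = v := by
    have h1 : (n : ℝ) - (n - e) = e := by ring
    rw [h1, div_eq_iff (by linarith)]
    linarith
  refine ⟨ζ, fun S hS => ?_⟩
  have hup := hatInt_le h (by linarith) hnw (by linarith)
  have hlo := le_hatStar S hS h hn hnw (by linarith) (by linarith) (by linarith) hκ0 hκ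
  rw [hval] at hup hlo
  have hst := star_le S n ζ
  refine ⟨⟨h.transc (by omega) (by linarith) hnw hκ, fun j hj1 hjn =>
    ⟨mahler_eq h hnw hw0 hκ j hj1 hjn, koksma_eq S hS h hnw hw0 hκ j hj1 hjn⟩⟩, ?_, ?_⟩
  · exact le_antisymm hup (hlo.trans hst)
  · exact le_antisymm (hst.trans hup) hlo

end Pool.Agent.Results.MP_1639aa_nt.MonicSpectrum
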